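import Pool.Agent.W_448cl_h67.ClK

/-!
Level 15 below a light component, window 7 (MP_448cb3_co): the finite check.
-/

namespace Pool.Agent.GaussPoset.W7h

open Finset Wd Cl

/-- the words of the late components at level 14 -/
def Wds (a : ℕ) : List (List Ltr) :=
  (if 1 ≤ 14 - a ∧ 14 - a ≤ a then [Qw (14 - a)] else []) ++
    (lateW a).filter (fun w => w.length = 14 - a)

/-- the number of elements of level `k` above an element of level 15 which is below the elements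
`s`, `s'` of level 14 -/
def nb2 (a : ℕ) (w : List Ltr) (s s' k : ℕ) : ℕ :=
  ((Icc (losW a w k) (hisW a w k)).filter
    (fun q => (q ≤ s ∧ s ≤ q + (14 - k)) ∨ (q ≤ s' ∧ s' ≤ q + (14 - k)))).card

/-- the profiles of the elements of level 15 -/
def EpN (f : ℕ → ℕ) : Prop :=
  (∀ l ∈ Icc 7 14, f l = 1) ∨ (∃ l ∈ Icc 8 14, f l = 2 ∧ ∀ l' ∈ Icc 7 14, l' ≠ l → f l' = 1) ∨
    19 ≤ f 8 + 2 * (f 9 + f 10 + f 11 + f 12 + f 13 + f 14) + 2

instance (f : ℕ → ℕ) : Decidable (EpN f) := by unfold EpN; infer_instance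

/-- only the level 9 has two elements -/
def E9N (f : ℕ → ℕ) : Prop := f 9 = 2 ∧ ∀ l' ∈ Icc 7 14, l' ≠ 9 → f l' = 1

instance (f : ℕ → ℕ) : Decidable (E9N f) := by unfold E9N; infer_instance

lemma low_words : ∀ a ∈ Icc 3 7, ∀ w ∈ Wds a, losW a w 7 ≠ hisW a w 7 := by decide +kernel

lemma high_words : ∀ a ∈ Icc 8 14, ∀ w ∈ Wds a,
    ∀ s ∈ Icc (losW a w 14) (hisW a w 14), ∀ s' ∈ Icc (losW a w 14) (hisW a w 14),
      EpN (nb2 a w s s') ∧ (E9N (nb2 a w s s') → 9 ≤ a) ∧ (∀ l ∈ range 8, nb2 a w s s' l = 1) ∧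
        1 ≤ nb2 a w s s' 9 := by decide +kernel

end Pool.Agent.GaussPoset.W7h
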