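import Pool.Agent.W_448w7_h94.WiA
import Pool.Agent.W_448w7_h44.WhA
import Pool.Agent.W_448s7s_h5.SmB
import Pool.Agent.W_448s8_h76.SaG

/-!
The elements of level 15 below a light component, window 7 (MP_448cb3_co, S7, `j = 14`).
-/

namespace Pool.Agent.GaussPoset.W7h

set_option linter.unusedSectionVars false

open Polynomial Finset Cl Dd Wd Win

universe u

variable {P : Type u} [Fintype P] [PartialOrder P] [DecidableEq P]
variable {r : ℕ} {t : Tops P} {lo hi : ℕ → ℕ} {e : ℕ → ℕ → P}

/-- all covers are below `t` -/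
lemma only_of_cov (h : Win.GoodTo P r 14) {v : P} (hv : lev v = 15)
    (hvt : ∀ y, v ⋖ y → y ≤ (t : P)) : v ∈ onlyB t := by
  rw [mem_onlyB]
  intro s hs hvs
  have hne : v ≠ s := by rintro rfl; omega
  obtain ⟨y, hy, hys⟩ := Hul.exists_cov (lt_of_le_of_ne hvs hne)
  have h1 := (h.H.covBy_iff.mp hy).2
  exact Cp.top_eq h.H h.good (z := y) (by omega) hs t.2 hys (hvt y hy)

/-- an element above `v` on every level -/
lemma anc (h : Win.GoodTo P r 14) {v : P} (hv : lev v = 15) (hx : v ∈ onlyB t) {k : ℕ}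
    (hk : k ≤ 14) : ∃ y, v ≤ y ∧ y ≤ (t : P) ∧ lev y = k := by
  have ht : lev (t : P) = 0 := t.2
  obtain ⟨q, h1, h2, h3⟩ := exists_between h.H.gradedBelow (z := v) (s := (t : P)) (onlyB_le hx)
    (l := k) (by omega) (by omega)
  exact ⟨q, h1, h2, h3⟩

/-- the positions above an element of level 15 -/
lemma pos_two (h : Win.GoodTo P r 14) (C : Cp.Comp 14 (t : P) lo hi e) {v : P} (hv : lev v = 15)
    (hx : v ∈ onlyB t) : ∃ s s', (lo 14 ≤ s ∧ s ≤ hi 14) ∧ (lo 14 ≤ s' ∧ s' ≤ hi 14) ∧
      Sm.posA 14 lo hi e v = {s, s'} := by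
  classical
  have h1 := (Sm.pos_cond h (by norm_num) C hx (by omega) (by omega)).2 hv
  obtain ⟨y, h2, h3, h4⟩ := anc h hv hx (k := 14) le_rfl
  obtain ⟨s, a1, a2, a3⟩ := C.surj y h3 (by omega)
  rw [h4] at a1 a2 a3
  have hs : s ∈ Sm.posA 14 lo hi e v := Sm.mem_posA.mpr ⟨⟨a1, a2⟩, by rw [a3]; exact h2⟩
  by_cases hall : ∀ s' ∈ Sm.posA 14 lo hi e v, s' = s
  · refine ⟨s, s, ⟨a1, a2⟩, ⟨a1, a2⟩, ?_⟩
    ext q
    rw [mem_insert, mem_singleton, or_self]
    exact ⟨hall q, fun hq => hq ▸ hs⟩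
  · push Not at hall
    obtain ⟨s', hs', hne⟩ := hall
    refine ⟨s, s', ⟨a1, a2⟩, (Sm.mem_posA.mp hs').1, ?_⟩
    symm
    apply Finset.eq_of_subset_of_card_le
    · intro q hq
      rw [mem_insert, mem_singleton] at hq
      rcases hq with rfl | rfl
      · exact hs
      · exact hs'
    · rw [Finset.card_pair (Ne.symm hne)]
      exact h1.1

/-- the numbers of elements above an element of level 15 -/
lemma nab_nb2 {a : ℕ} {w : List Ltr} (h : Win.GoodTo P r 14) (C : Cp.Comp 14 (t : P) lo hi e)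
    (D : WordD 14 a w lo hi) {v : P} (hv : lev v = 15) (hx : v ∈ onlyB t) {s s' : ℕ}
    (hA : Sm.posA 14 lo hi e v = {s, s'}) {k : ℕ} (hk : k ≤ 14) :
    nab k v = nb2 a w s s' k := by
  classical
  rw [Sm.nab_pos h.H h.good C hx (by omega) hk]
  obtain ⟨r1, r2⟩ := D.rows C
  unfold nb2
  rw [r1 k hk, r2 k hk, hA]
  congr 1
  refine Finset.filter_congr fun q _ => ?_
  constructor
  · rintro ⟨s1, g1, g2⟩
    rw [mem_insert, mem_singleton] at g1
    rcases g1 with rfl | rfl
    · exact Or.inl g2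
    · exact Or.inr g2
  · rintro (g | g)
    · exact ⟨s, by simp, g⟩
    · exact ⟨s', by simp, g⟩

lemma ct_seven {v : P} (hv : lev v = 15) : ct 7 2 v =
    nab 8 v + 2 * (nab 9 v + nab 10 v + nab 11 v + nab 12 v + nab 13 v + nab 14 v) + 2 := by
  rw [ct_top (m := 7) (k := 2) hv (by norm_num)]
  unfold vs
  simp only [Finset.sum_range_succ, Finset.sum_range_zero]
  norm_num
  ring

/-- the profile from the numbers -/
lemma ep_of {v : P} (hv : lev v = 15) {f : ℕ → ℕ} (hf : ∀ k, k ≤ 14 → nab k v = f k)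
    (h79 : f 7 ≤ f 9) (h : EpN f) : W7.Ep v := by
  rcases h with h | ⟨l, hl, h1, h2⟩ | h
  · left
    intro l h1 h2
    rw [hf l h2]
    exact h l (mem_Icc.mpr ⟨h1, h2⟩)
  · right; left
    rw [mem_Icc] at hl
    refine ⟨l, hl.1, hl.2, by rw [hf l hl.2]; exact h1, fun l' h3 h4 h5 => ?_⟩
    rw [hf l' h4]
    exact h2 l' (mem_Icc.mpr ⟨h3, h4⟩) h5
  · right; right; left
    rw [ct_seven hv, hf 8 (by norm_num), hf 9 (by norm_num), hf 10 (by norm_num),
      hf 11 (by norm_num), hf 12 (by norm_num), hf 13 (by norm_num), hf 14 (by norm_num),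
      hf 7 (by norm_num)]
    exact ⟨h, h79⟩

lemma rect_wide (C : Cp.Comp 14 (t : P) lo hi e) (h1 : lo 1 = 0 ∧ hi 1 = 1)
    (S : RectShape 14 lo hi) (h7 : hi 7 = lo 7) : False := by
  have hh : ∀ k, 1 ≤ k → k ≤ 14 → 1 ≤ hi k := by
    intro k hk
    induction k, hk using Nat.le_induction with
    | base => intro _; omega
    | succ k hk ih =>
      intro hk'
      have := C.hi_step k (by omega)
      have := ih (by omega)
      omega
  have hl : ∀ k, 1 ≤ k → k ≤ 14 → lo k + 1 ≤ k := by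
    intro k hk
    induction k, hk using Nat.le_induction with
    | base => intro _; omega
    | succ k hk ih =>
      intro hk'
      have := C.lo_step k (by omega)
      have := ih (by omega)
      omega
  have g1 := hh 7 (by norm_num) (by norm_num)
  have g2 := hl 7 (by norm_num) (by norm_num)
  have g3 : ∀ d, 7 + d ≤ 14 → lo (7 + d) = lo 7 + d ∧ hi (7 + d) = hi 7 := by
    intro d
    induction d with
    | zero => intro _; exact ⟨rfl, rfl⟩
    | succ d ih =>
      intro hd
      have e1 := ih (by omega)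
      have e2 := S.lo (7 + d) (by omega)
      have e3 := S.hi (7 + d) (by omega)
      have e4 := C.lo_step (7 + d) (by omega)
      have e5 := C.hi_step (7 + d) (by omega)
      rw [show 7 + (d + 1) = 7 + d + 1 by omega]
      omega
  have g4 := g3 7 (by norm_num)
  have g5 := C.lo_le 14 le_rfl
  rw [show 7 + 7 = 14 by norm_num] at g4
  omega

lemma stair_wide (C : Cp.Comp 14 (t : P) lo hi e) (S : StairShape 14 lo hi)
    (h7 : hi 7 = lo 7) : False := by
  have g1 := S.hi 7 (by norm_num)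
  have g3 : ∀ d, 7 + d ≤ 14 → lo (7 + d) = lo 7 + d := by
    intro d
    induction d with
    | zero => intro _; rfl
    | succ d ih =>
      intro hd
      have e1 := ih (by omega)
      have e2 := S.lo (7 + d) (by omega)
      have e4 := C.lo_step (7 + d) (by omega)
      rw [show 7 + (d + 1) = 7 + d + 1 by omega]
      omega
  have g4 := g3 7 (by norm_num)
  have g5 := C.lo_le 14 le_rfl
  have g6 := S.hi 14 le_rfl
  rw [show 7 + 7 = 14 by norm_num] at g4
  omega

/-- (H): the elements of level 15 below a light component -/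
theorem ep_light (h : Win.GoodTo P r 14) (C : Cp.Comp 14 (t : P) lo hi e)
    (hS : Wd.Shape 14 lo hi) (h7 : hi 7 = lo 7) {v : P} (hv : lev v = 15)
    (hvt : ∀ y, v ⋖ y → y ≤ (t : P)) :
    W7.Ep v ∧ (∀ l, l ≤ 7 → nab l v = 1) ∧
      (nab 9 v = 2 → (∀ l, 7 ≤ l → l ≤ 14 → l ≠ 9 → nab l v = 1) →
        ∀ x, x ≤ (t : P) → ¬ v ≤ x → 9 ≤ lev x) := by
  classical
  have hx := only_of_cov h hv hvt
  rcases hS with h0 | ⟨h1, h2⟩ | ⟨-, h2⟩ | ⟨h0, -, -⟩ | ⟨h0, -⟩ | ⟨a, h0, h1, h2, h3, hN, h4⟩
  · have key : ∀ k, k ≤ 14 → nab k v = 1 := by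
      intro k hk
      obtain ⟨s, s', b1, b2, b3⟩ := pos_two h C hv hx
      have := h0 14 le_rfl
      have := h0 k hk
      rw [Sm.nab_pos h.H h.good C hx (by omega) hk, b3, Finset.card_eq_one]
      refine ⟨0, ?_⟩
      ext q
      rw [mem_filter, mem_Icc, mem_singleton]
      constructor
      · rintro ⟨g1, -⟩
        omega
      · rintro rfl
        refine ⟨by omega, s, by simp, by omega, by omega⟩
    refine ⟨Or.inl fun l _ hl => key l hl, fun l hl => key l (by omega), fun h9 => ?_⟩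
    have := key 9 (by norm_num)
    omega
  · exact (rect_wide C h1 h2 h7).elim
  · exact (stair_wide C h2 h7).elim
  · omega
  · omega
  · have D : WordD 14 a (Wd.word lo hi a (14 - a)) lo hi :=
      ⟨h2, h3, by
        rw [List.take_of_length_le]
        unfold Wd.word
        simp⟩
    have hw : Wd.word lo hi a (14 - a) ∈ Wds a := by
      unfold Wds
      rw [List.mem_append]
      rcases h4 with ⟨g1, g2⟩ | g
      · left
        rw [if_pos g1, List.mem_singleton]
        exact g2
      · right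
        rw [List.mem_filter]
        refine ⟨g, ?_⟩
        unfold Wd.word
        simp
    set w := Wd.word lo hi a (14 - a) with hwd
    obtain ⟨r1, r2⟩ := D.rows C
    rcases Nat.lt_or_ge a 8 with ha | ha
    · exfalso
      apply low_words a (mem_Icc.mpr ⟨h0, by omega⟩) w hw
      rw [← r1 7 (by norm_num), ← r2 7 (by norm_num)]
      exact h7.symm
    · obtain ⟨s, s', b1, b2, b3⟩ := pos_two h C hv hx
      rw [r1 14 le_rfl, r2 14 le_rfl, ← mem_Icc] at b1 b2
      obtain ⟨c1, c2, c3, c4⟩ := high_words a (mem_Icc.mpr ⟨ha, h1⟩) w hw s b1 s' b2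
      have hf : ∀ k, k ≤ 14 → nab k v = nb2 a w s s' k := fun k hk =>
        nab_nb2 h C D hv hx b3 hk
      refine ⟨ep_of hv hf ?_ c1, fun l hl => ?_, fun h9 h9' x hxt hvx => ?_⟩
      · rw [c3 7 (by decide)]
        exact c4
      · rw [hf l (by omega)]
        exact c3 l (mem_range.mpr (by omega))
      · have ha9 : 9 ≤ a := c2 ⟨by rw [← hf 9 (by norm_num)]; exact h9, fun l' hl' hne => by
          rw [mem_Icc] at hl'
          rw [← hf l' hl'.2]
          exact h9' l' hl'.1 hl'.2 hne⟩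
        by_contra hlt
        push Not at hlt
        apply hvx
        obtain ⟨y, g1, g2, g3⟩ := anc h hv hx (k := lev x) (by omega)
        obtain ⟨q, d1, d2, d3⟩ := C.surj x hxt (by omega)
        obtain ⟨q', d1', d2', d3'⟩ := C.surj y g2 (by omega)
        have d4 := h2 (lev x) (by omega)
        rw [g3] at d1' d2' d3'
        have : q = q' := by omega
        rw [← d3, this, d3']
        exact g1

end Pool.Agent.GaussPoset.W7h
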